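import Pool.Agent.H31.BOU.Targets1
import Pool.Agent.H31.BOU.Targets3

/-!
SUM: the sum of the stages (board bou).
-/

set_option autoImplicit false

namespace Pool.Agent.H41.BOU

open Finset Pool.Agent.H31.BOU

theorem DD_add (F₁ F₂ G : ℤ → ℂ) (j : ℕ) (κ : ℤ) (t : ℕ) (k : ℤ) :
    DD (fun v => F₁ v + F₂ v) G j κ t k = DD F₁ G j κ t k + DD F₂ G j κ t k := by
  unfold DD
  rw [← add_div, ← sum_add_distrib]
  congr 1
  refine sum_congr rfl fun a _ => ?_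
  rw [← sum_add_distrib]
  refine sum_congr rfl fun b _ => ?_
  ring

theorem DD_norm (F G : ℤ → ℂ) (j : ℕ) (κ : ℤ) (t : ℕ) (k : ℤ) (s : ℝ) (hF : ∀ v, ‖F v‖ ≤ s)
    (hG : ∀ v, ‖G v‖ ≤ 1) : ‖DD F G j κ t k‖ ≤ s := by
  have hs : 0 ≤ s := (norm_nonneg _).trans (hF 0)
  unfold DD
  rw [norm_div, norm_pow, Complex.norm_ofNat, div_le_iff₀ (by positivity)]
  calc _ ≤ ∑ a ∈ range (2 ^ j), ∑ b ∈ range (2 ^ j), s := by
        refine (norm_sum_le _ _).trans (sum_le_sum fun a _ => (norm_sum_le _ _).trans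
          (sum_le_sum fun b _ => ?_))
        rw [norm_mul]
        calc _ ≤ 1 * s := mul_le_mul (hG _) (hF _) (norm_nonneg _) zero_le_one
          _ = s := one_mul s
    _ = s * 4 ^ j := by
        rw [sum_const, sum_const, card_range, nsmul_eq_mul, nsmul_eq_mul]
        push_cast
        rw [show (4 : ℝ) = 2 * 2 by norm_num, mul_pow]
        ring

theorem ee_norm (t : ℝ) : ‖ee t‖ = 1 := by
  unfold ee
  exact Complex.norm_exp_ofReal_mul_I _

/-- a function with small coefficients is small -/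
theorem small (hI : T_INV) (H : ℤ → ℂ) (j : ℕ) (s : ℝ)
    (h : ∀ m, ∀ a < 2 ^ j, ‖cf H j m a‖ ≤ s) (v : ℤ) : ‖H v‖ ≤ 2 ^ j * s := by
  have hv : v ∈ blk j (v / 2 ^ j) := by
    unfold blk
    rw [mem_Ico]
    have h0 : (0 : ℤ) < 2 ^ j := by positivity
    exact ⟨Int.ediv_mul_le v h0.ne', Int.lt_ediv_add_one_mul_self v h0⟩
  rw [(hI H j (v / 2 ^ j)).1 v hv]
  calc _ ≤ ∑ a ∈ range (2 ^ j), s := by
        refine (norm_sum_le _ _).trans (sum_le_sum fun a ha => ?_)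
        rw [norm_mul, ee_norm, mul_one]
        exact h _ a (mem_range.1 ha)
    _ = 2 ^ j * s := by
        rw [sum_const, card_range, nsmul_eq_mul]
        push_cast
        rfl

open Classical in
/-- the stages up to `n0 + d` -/
theorem stages (hP : T_PUR) (T : ℕ) (C : ℝ) (hC : 0 < C)
    (hO : ∀ (n : ℕ) (ι ι' : Type) [Fintype ι] [Fintype ι']
      (J : ℕ) (F G : ℤ → ℂ) (P : Fam ι) (P' : Fam ι'), 1 ≤ n → Bdd J F → Bdd J G →
      PurP J (1 / 2 ^ (32 * (n - 1))) F P → PurP J (1 / 2 ^ (32 * n)) F P' →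
      (((range (2 ^ J) ×ˢ range (2 ^ J)).filter (fun ab : ℕ × ℕ =>
        ∃ j ≤ J, ∃ t ≤ T, C / 2 ^ n <
          ‖DD (fun v => P'.str j v - P.str j v) G j (kn ab.1 ab.2 j) t
            ((ab.1 : ℤ) + ab.2)‖)).card : ℝ) ≤ C / 2 ^ n * 4 ^ J)
    (ι : Type) [Fintype ι] (J : ℕ) (F G : ℤ → ℂ) (P : Fam ι) (hF : Bdd J F) (hG : Bdd J G)
    (n0 : ℕ) (h0 : PurP J (1 / 2 ^ (32 * n0)) F P) (d : ℕ) :
    ∃ (ι' : Type) (_ : Fintype ι') (P' : Fam ι'), PurP J (1 / 2 ^ (32 * (n0 + d))) F P' ∧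
      (((range (2 ^ J) ×ˢ range (2 ^ J)).filter (fun ab : ℕ × ℕ =>
        ∃ j ≤ J, ∃ t ≤ T, C / 2 ^ n0 * (1 - 1 / 2 ^ d) <
          ‖DD (fun v => P'.str j v - P.str j v) G j (kn ab.1 ab.2 j) t
            ((ab.1 : ℤ) + ab.2)‖)).card : ℝ) ≤ C / 2 ^ n0 * (1 - 1 / 2 ^ d) * 4 ^ J := by
  induction d with
  | zero =>
    refine ⟨ι, inferInstance, P, h0, ?_⟩
    have h1 : ((range (2 ^ J) ×ˢ range (2 ^ J)).filter (fun ab : ℕ × ℕ =>
        ∃ j ≤ J, ∃ t ≤ T, C / 2 ^ n0 * (1 - 1 / 2 ^ 0) <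
          ‖DD (fun v => P.str j v - P.str j v) G j (kn ab.1 ab.2 j) t
            ((ab.1 : ℤ) + ab.2)‖)) = ∅ := by
      rw [filter_eq_empty_iff]
      rintro ab - ⟨j, -, t, -, h⟩
      have h2 := DD_norm (fun v => P.str j v - P.str j v) G j (kn ab.1 ab.2 j) t
        ((ab.1 : ℤ) + ab.2) 0 (fun v => by rw [sub_self, norm_zero]) hG.1
      norm_num at h
      exact absurd (norm_le_zero_iff.1 (by simpa using h2)) (by simpa using h)
    rw [h1, card_empty]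
    norm_num
  | succ d ih =>
    obtain ⟨ι', hι', P', h1, h2⟩ := ih
    obtain ⟨N, P'', h3, h4, h5⟩ := hP J (1 / 2 ^ (32 * (n0 + (d + 1)))) F (by positivity) hF.1 hF.2
    have h6 : PurP J (1 / 2 ^ (32 * (n0 + (d + 1)))) F P'' := ⟨h3, h4, h5⟩
    refine ⟨Fin N, inferInstance, P'', h6, ?_⟩
    have h7 := hO (n0 + (d + 1)) ι' (Fin N) J F G P' P'' (by omega) hF hG
      (by
        have e : n0 + (d + 1) - 1 = n0 + d := by omega
        rw [e]
        exact h1) h6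
    have e1 : C / 2 ^ n0 * (1 - 1 / 2 ^ (d + 1)) =
        C / 2 ^ n0 * (1 - 1 / 2 ^ d) + C / 2 ^ (n0 + (d + 1)) := by
      rw [pow_add, pow_succ]
      field_simp
      ring
    have hsub : ((range (2 ^ J) ×ˢ range (2 ^ J)).filter (fun ab : ℕ × ℕ =>
        ∃ j ≤ J, ∃ t ≤ T, C / 2 ^ n0 * (1 - 1 / 2 ^ (d + 1)) <
          ‖DD (fun v => P''.str j v - P.str j v) G j (kn ab.1 ab.2 j) t
            ((ab.1 : ℤ) + ab.2)‖)) ⊆
        ((range (2 ^ J) ×ˢ range (2 ^ J)).filter (fun ab : ℕ × ℕ =>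
        ∃ j ≤ J, ∃ t ≤ T, C / 2 ^ n0 * (1 - 1 / 2 ^ d) <
          ‖DD (fun v => P'.str j v - P.str j v) G j (kn ab.1 ab.2 j) t
            ((ab.1 : ℤ) + ab.2)‖)) ∪
        ((range (2 ^ J) ×ˢ range (2 ^ J)).filter (fun ab : ℕ × ℕ =>
        ∃ j ≤ J, ∃ t ≤ T, C / 2 ^ (n0 + (d + 1)) <
          ‖DD (fun v => P''.str j v - P'.str j v) G j (kn ab.1 ab.2 j) t
            ((ab.1 : ℤ) + ab.2)‖)) := by
      intro ab hab
      rw [mem_filter] at hab
      obtain ⟨hab, j, hj, t, ht, h⟩ := hab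
      rw [mem_union, mem_filter, mem_filter]
      by_contra hcon
      rw [not_or] at hcon
      obtain ⟨c1, c2⟩ := hcon
      have c1' : ‖DD (fun v => P'.str j v - P.str j v) G j (kn ab.1 ab.2 j) t
          ((ab.1 : ℤ) + ab.2)‖ ≤ C / 2 ^ n0 * (1 - 1 / 2 ^ d) :=
        not_lt.1 fun h' => c1 ⟨hab, j, hj, t, ht, h'⟩
      have c2' : ‖DD (fun v => P''.str j v - P'.str j v) G j (kn ab.1 ab.2 j) t
          ((ab.1 : ℤ) + ab.2)‖ ≤ C / 2 ^ (n0 + (d + 1)) :=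
        not_lt.1 fun h' => c2 ⟨hab, j, hj, t, ht, h'⟩
      have e2 : (fun v => P''.str j v - P.str j v) =
          fun v => (P''.str j v - P'.str j v) + (P'.str j v - P.str j v) := by
        funext v
        ring
      rw [e2, DD_add] at h
      have c3 := norm_add_le (DD (fun v => P''.str j v - P'.str j v) G j (kn ab.1 ab.2 j) t
          ((ab.1 : ℤ) + ab.2)) (DD (fun v => P'.str j v - P.str j v) G j (kn ab.1 ab.2 j) t
          ((ab.1 : ℤ) + ab.2))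
      rw [e1] at h
      linarith
    have h8 := (card_le_card hsub).trans (card_union_le _ _)
    have h9 : ((((range (2 ^ J) ×ˢ range (2 ^ J)).filter (fun ab : ℕ × ℕ =>
        ∃ j ≤ J, ∃ t ≤ T, C / 2 ^ n0 * (1 - 1 / 2 ^ (d + 1)) <
          ‖DD (fun v => P''.str j v - P.str j v) G j (kn ab.1 ab.2 j) t
            ((ab.1 : ℤ) + ab.2)‖)).card : ℕ) : ℝ) ≤ _ := Nat.cast_le.2 h8
    rw [Nat.cast_add] at h9
    refine h9.trans ?_
    rw [e1, add_mul]
    exact add_le_add h2 h7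

theorem pf_SUM (hO : T_ONE) (hP : T_PUR) (hI : T_INV) : T_SUM := by
  classical
  intro T ε lam hε hlam
  obtain ⟨C, hC, hO⟩ := hO T
  obtain ⟨n, hn⟩ := exists_pow_lt_of_lt_one (show 0 < min ε (lam / 2) / C by positivity)
    (show (1 / 2 : ℝ) < 1 by norm_num)
  have hpow : ∀ n : ℕ, (1 / 2 : ℝ) ^ n = 1 / 2 ^ n := fun n => by rw [div_pow, one_pow]
  have hn1 : C / 2 ^ (n + 1) ≤ min ε (lam / 2) := by
    rw [hpow, lt_div_iff₀ hC] at hn
    have h1 : C / 2 ^ (n + 1) ≤ 1 / 2 ^ n * C := by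
      rw [pow_succ, one_div_mul_eq_div]
      refine div_le_div_of_nonneg_left hC.le (by positivity) ?_
      nlinarith [show (0 : ℝ) < 2 ^ n by positivity]
    linarith
  refine ⟨n + 1, by omega, fun ι _ J F G P hF hG h0 => ?_⟩
  obtain ⟨d, hd⟩ := exists_pow_lt_of_lt_one (show 0 < lam / 2 / 2 ^ J by positivity)
    (show (1 / 2 : ℝ) < 1 by norm_num)
  obtain ⟨ι', hι', P', h1, h2⟩ := stages hP T C hC hO ι J F G P hF hG (n + 1) h0 d
  have hle : C / 2 ^ (n + 1) * (1 - 1 / 2 ^ d) ≤ min ε (lam / 2) := by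
    refine le_trans ?_ hn1
    refine mul_le_of_le_one_right (by positivity) ?_
    have : (0 : ℝ) < 1 / 2 ^ d := by positivity
    linarith
  have hle1 := hle.trans (min_le_left _ _)
  have hle2 := hle.trans (min_le_right _ _)
  refine le_trans (Nat.cast_le.2 (card_le_card ?_))
    (h2.trans (mul_le_mul_of_nonneg_right hle1 (by positivity)))
  intro ab hab
  rw [mem_filter] at hab ⊢
  obtain ⟨hab, j, hj, t, ht, h⟩ := hab
  refine ⟨hab, j, hj, t, ht, ?_⟩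
  have hs : ∀ v, ‖F v - P'.str j v‖ ≤ lam / 2 := by
    intro v
    have h3 := small hI (fun v => F v - P'.str j v) j (1 / 2 ^ (32 * (n + 1 + d)))
      (fun m a ha => h1.c j hj m a ha) v
    refine h3.trans ?_
    have h4 : (2 : ℝ) ^ j ≤ 2 ^ J := pow_le_pow_right₀ (by norm_num) hj
    have h5 : (1 : ℝ) / 2 ^ (32 * (n + 1 + d)) ≤ 1 / 2 ^ d := by
      refine one_div_le_one_div_of_le (by positivity) ?_
      exact pow_le_pow_right₀ (by norm_num) (by omega)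
    rw [hpow, lt_div_iff₀ (by positivity)] at hd
    calc (2 : ℝ) ^ j * (1 / 2 ^ (32 * (n + 1 + d))) ≤ 2 ^ J * (1 / 2 ^ d) :=
          mul_le_mul h4 h5 (by positivity) (by positivity)
      _ = 1 / 2 ^ d * 2 ^ J := mul_comm _ _
      _ ≤ _ := hd.le
  have h6 := DD_norm (fun v => F v - P'.str j v) G j (kn ab.1 ab.2 j) t ((ab.1 : ℤ) + ab.2)
    (lam / 2) hs hG.1
  have e2 : (fun v => F v - P.str j v) =
      fun v => (P'.str j v - P.str j v) + (F v - P'.str j v) := by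
    funext v
    ring
  rw [e2, DD_add] at h
  have c3 := norm_add_le (DD (fun v => P'.str j v - P.str j v) G j (kn ab.1 ab.2 j) t
    ((ab.1 : ℤ) + ab.2)) (DD (fun v => F v - P'.str j v) G j (kn ab.1 ab.2 j) t
    ((ab.1 : ℤ) + ab.2))
  linarith

end Pool.Agent.H41.BOU
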